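import Mathlib
import Pool.Agent.Lib.MP_7ab245_nt.Res

/-!
Polynomials without a divisor of Mahler measure one (except the units): they are counted with a
multiplicative weight of their irreducible factors.
-/

set_option autoImplicit false

open Polynomial Finset

namespace Pool.Agent.Lib.MP_7ab245_nt.Cnt3

open Pool.Agent.Lib.MP_7ab245_nt

/-- the weight of a polynomial -/
noncomputable def wt (a b : ℝ) (f : ℤ[X]) : ℝ :=
  Real.exp (-(a * Real.log (MM f) + b * f.natDegree))

theorem wt_pos (a b : ℝ) (f : ℤ[X]) : 0 < wt a b f := Real.exp_pos _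

theorem MM_pos {f : ℤ[X]} (hf : f ≠ 0) : 0 < MM f := lt_of_lt_of_le one_pos (MM_one_le hf)

theorem MM_mulc (f g : ℤ[X]) : MM (f * g) = MM f * MM g := by
  unfold MM
  rw [Polynomial.map_mul, mahlerMeasure_mul]

theorem MM_onec : MM (1 : ℤ[X]) = 1 := by
  unfold MM
  rw [Polynomial.map_one, mahlerMeasure_one]

theorem MM_Cc (c : ℤ) : MM (C c : ℤ[X]) = |(c : ℝ)| := by
  unfold MM
  rw [Polynomial.map_C, mahlerMeasure_const]
  simp

theorem MM_neg_one : MM (-1 : ℤ[X]) = 1 := by
  have h : (-1 : ℤ[X]) = C (-1) := by simp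
  rw [h, MM_Cc]
  simp

theorem wt_mul (a b : ℝ) {f g : ℤ[X]} (hf : f ≠ 0) (hg : g ≠ 0) :
    wt a b (f * g) = wt a b f * wt a b g := by
  unfold wt
  rw [← Real.exp_add, MM_mulc, Real.log_mul (MM_pos hf).ne' (MM_pos hg).ne', natDegree_mul hf hg]
  congr 1
  push_cast
  ring

open Classical in
/-- the products of `i` elements of `H`, with a sign -/
noncomputable def AA (H : Finset ℤ[X]) : ℕ → Finset ℤ[X]
  | 0 => {1, -1}
  | i + 1 => (H ×ˢ AA H i).image fun p => p.1 * p.2

theorem AA_ne_zero (H : Finset ℤ[X]) (hH : ∀ h ∈ H, h ≠ 0) (i : ℕ) : ∀ g ∈ AA H i, g ≠ 0 := by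
  induction i with
  | zero =>
    intro g hg
    simp only [AA, mem_insert, mem_singleton] at hg
    rcases hg with rfl | rfl
    · exact one_ne_zero
    · exact neg_ne_zero.mpr one_ne_zero
  | succ i ih =>
    intro g hg
    simp only [AA, mem_image, mem_product, Prod.exists] at hg
    obtain ⟨h, g', ⟨h1, h2⟩, rfl⟩ := hg
    exact mul_ne_zero (hH h h1) (ih g' h2)

theorem sum_AA (a b : ℝ) (H : Finset ℤ[X]) (hH : ∀ h ∈ H, h ≠ 0) (i : ℕ) :
    ∑ g ∈ AA H i, wt a b g ≤ 2 * (∑ h ∈ H, wt a b h) ^ i := by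
  classical
  induction i with
  | zero =>
    have h1 : (1 : ℤ[X]) ≠ -1 := by
      intro h
      have h2 := congrArg (fun p : ℤ[X] => p.coeff 0) h
      simp at h2
    have h2 : wt a b 1 = 1 := by
      unfold wt
      rw [MM_onec]
      simp
    have h3 : wt a b (-1) = 1 := by
      unfold wt
      rw [MM_neg_one]
      simp
    have h4 : AA H 0 = {1, -1} := rfl
    rw [h4, Finset.sum_pair h1, h2, h3]
    norm_num
  | succ i ih =>
    have h0 : AA H (i + 1) = (H ×ˢ AA H i).image fun p => p.1 * p.2 := by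
      conv_lhs => unfold AA
    have hS : 0 ≤ ∑ h ∈ H, wt a b h := Finset.sum_nonneg fun h _ => (wt_pos a b h).le
    calc ∑ g ∈ AA H (i + 1), wt a b g
        ≤ ∑ p ∈ H ×ˢ AA H i, wt a b (p.1 * p.2) := by
          rw [h0]
          exact Finset.sum_image_le_of_nonneg (fun u _ => (wt_pos a b u).le)
      _ = ∑ p ∈ H ×ˢ AA H i, wt a b p.1 * wt a b p.2 := by
          refine Finset.sum_congr rfl fun p hp => ?_
          rw [mem_product] at hp
          exact wt_mul a b (hH _ hp.1) (AA_ne_zero H hH i _ hp.2)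
      _ = (∑ h ∈ H, wt a b h) * ∑ g ∈ AA H i, wt a b g := by
          rw [Finset.sum_product, Finset.sum_mul_sum]
      _ ≤ (∑ h ∈ H, wt a b h) * (2 * (∑ h ∈ H, wt a b h) ^ i) := by gcongr
      _ = 2 * (∑ h ∈ H, wt a b h) ^ (i + 1) := by ring

/-- the units are the only divisors of Mahler measure one -/
def NC (g : ℤ[X]) : Prop := ∀ h : ℤ[X], h ∣ g → MM h = 1 → IsUnit h

theorem unit_mem (H : Finset ℤ[X]) {g : ℤ[X]} (hg : IsUnit g) : g ∈ AA H 0 := by
  rw [Polynomial.isUnit_iff] at hg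
  obtain ⟨r, hr, rfl⟩ := hg
  simp only [AA, mem_insert, mem_singleton]
  rcases Int.isUnit_iff.mp hr with rfl | rfl
  · left; simp
  · right; simp

theorem mem_AA (n : ℕ) (δ τ : ℝ) (H : Finset ℤ[X])
    (hlow : ∀ h : ℤ[X], h.natDegree ≤ n → 1 < MM h → δ ≤ Real.log (MM h))
    (hH : ∀ h : ℤ[X], Irreducible h → h.natDegree ≤ n → 1 < MM h → Real.log (MM h) ≤ τ → h ∈ H) :
    ∀ (m : ℕ) (g : ℤ[X]), g ≠ 0 → NC g → g.natDegree ≤ n → Real.log (MM g) ≤ τ →
      Real.log (MM g) < δ * (m + 1) → ∃ i ≤ m, g ∈ AA H i := by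
  classical
  intro m
  induction m with
  | zero =>
    intro g hg0 hNC hd hτ hm
    refine ⟨0, le_refl _, unit_mem H ?_⟩
    apply hNC g dvd_rfl
    by_contra hne
    have h1 : 1 < MM g := lt_of_le_of_ne (MM_one_le hg0) (Ne.symm hne)
    have h2 := hlow g hd h1
    rw [Nat.cast_zero, zero_add, mul_one] at hm
    linarith
  | succ m ih =>
    intro g hg0 hNC hd hτ hm
    by_cases hu : IsUnit g
    · exact ⟨0, Nat.zero_le _, unit_mem H hu⟩
    obtain ⟨h, hirr, g', rfl⟩ := WfDvdMonoid.exists_irreducible_factor hu hg0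
    have hh0 : h ≠ 0 := left_ne_zero_of_mul hg0
    have hg'0 : g' ≠ 0 := right_ne_zero_of_mul hg0
    have h1 : 1 < MM h := by
      refine lt_of_le_of_ne (MM_one_le hh0) fun hne => ?_
      exact hirr.not_isUnit (hNC h (dvd_mul_right _ _) hne.symm)
    have hdeg := natDegree_mul hh0 hg'0
    have hlog : Real.log (MM (h * g')) = Real.log (MM h) + Real.log (MM g') := by
      rw [MM_mulc, Real.log_mul (MM_pos hh0).ne' (MM_pos hg'0).ne']
    have h2 := hlow h (by omega) h1
    have h3 : 0 ≤ Real.log (MM g') := Real.log_nonneg (MM_one_le hg'0)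
    have h4 : 0 ≤ Real.log (MM h) := Real.log_nonneg (MM_one_le hh0)
    obtain ⟨i, hi, hmem⟩ := ih g' hg'0 (fun k hk => hNC k (hk.mul_left h)) (by omega)
      (by linarith) (by
        push_cast at hm
        nlinarith)
    refine ⟨i + 1, by omega, ?_⟩
    simp only [AA, mem_image, mem_product, Prod.exists]
    exact ⟨h, g', ⟨hH h hirr (by omega) h1 (by linarith), hmem⟩, rfl⟩

theorem card_le (n m : ℕ) (a b τ : ℝ) (ha : 0 ≤ a) (hb : 0 ≤ b) (H F : Finset ℤ[X])
    (hH0 : ∀ h ∈ H, h ≠ 0)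
    (hF : ∀ g ∈ F, g.natDegree ≤ n ∧ Real.log (MM g) ≤ τ ∧ ∃ i ≤ m, g ∈ AA H i) :
    (F.card : ℝ) ≤ Real.exp (a * τ + b * n) *
      ∑ i ∈ range (m + 1), 2 * (∑ h ∈ H, wt a b h) ^ i := by
  classical
  have h1 : ∀ g ∈ F, (1 : ℝ) ≤ Real.exp (a * τ + b * n) *
      ∑ i ∈ range (m + 1), (if g ∈ AA H i then wt a b g else 0) := by
    intro g hg
    obtain ⟨h1, h2, i, hi, hmem⟩ := hF g hg
    have h3 : wt a b g ≤ ∑ i ∈ range (m + 1), (if g ∈ AA H i then wt a b g else 0) := by
      have h4 := Finset.single_le_sum (f := fun i => if g ∈ AA H i then wt a b g else 0)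
        (s := range (m + 1)) (fun j _ => by
          split_ifs
          · exact (wt_pos a b g).le
          · exact le_refl _) (Finset.mem_range.mpr (Nat.lt_succ_of_le hi))
      simpa [hmem] using h4
    have h4 : (1 : ℝ) ≤ Real.exp (a * τ + b * n) * wt a b g := by
      unfold wt
      rw [← Real.exp_add]
      apply Real.one_le_exp
      have h5 : (g.natDegree : ℝ) ≤ n := by exact_mod_cast h1
      nlinarith [mul_le_mul_of_nonneg_left h2 ha, mul_le_mul_of_nonneg_left h5 hb]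
    exact h4.trans (by gcongr)
  calc (F.card : ℝ) = ∑ g ∈ F, (1 : ℝ) := by simp
    _ ≤ ∑ g ∈ F, Real.exp (a * τ + b * n) *
        ∑ i ∈ range (m + 1), (if g ∈ AA H i then wt a b g else 0) := Finset.sum_le_sum h1
    _ = Real.exp (a * τ + b * n) *
        ∑ i ∈ range (m + 1), ∑ g ∈ F, (if g ∈ AA H i then wt a b g else 0) := by
        rw [← Finset.mul_sum, Finset.sum_comm]
    _ ≤ Real.exp (a * τ + b * n) * ∑ i ∈ range (m + 1), 2 * (∑ h ∈ H, wt a b h) ^ i := by
        gcongr with i _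
        refine le_trans ?_ (sum_AA a b H hH0 i)
        rw [← Finset.sum_filter]
        apply Finset.sum_le_sum_of_subset_of_nonneg
        · intro g hg
          exact (Finset.mem_filter.mp hg).2
        · intro g _ _
          exact (wt_pos a b g).le

end Pool.Agent.Lib.MP_7ab245_nt.Cnt3
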