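import Pool.Agent.Lib.MP_7ab245_nt.Cnt.Uni
import Pool.Agent.Lib.MP_7ab245_nt.Cnt3.Weight

/-!
The total weight of the irreducible polynomials of degree at most `n` and Mahler measure less
than two.
-/

set_option autoImplicit false

open Polynomial Finset

namespace Pool.Agent.Lib.MP_7ab245_nt.Cnt3

open Pool.Agent.Lib.MP_7ab245_nt

theorem cntMM (f : ℤ[X]) : Cnt.MM f = Pool.Agent.Lib.MP_7ab245_nt.MM f := rfl

theorem deg_pos {h : ℤ[X]} (h1 : 1 < Pool.Agent.Lib.MP_7ab245_nt.MM h)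
    (h2 : Pool.Agent.Lib.MP_7ab245_nt.MM h < 2) : 1 ≤ h.natDegree := by
  by_contra hd
  have hd0 : h.natDegree = 0 := by omega
  rw [eq_C_of_natDegree_eq_zero hd0, MM_Cc] at h1 h2
  have h3 : (1 : ℤ) < |h.coeff 0| := by exact_mod_cast h1
  have h4 : |h.coeff 0| < (2 : ℤ) := by exact_mod_cast h2
  omega

theorem Z_le (n R : ℕ) (a b : ℝ) (ha : 0 ≤ a) (H : Finset ℤ[X])
    (hH : ∀ h ∈ H, Irreducible h ∧ h.natDegree ≤ n ∧ 1 < Pool.Agent.Lib.MP_7ab245_nt.MM h ∧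
      Pool.Agent.Lib.MP_7ab245_nt.MM h < 2 ∧
      ⌊1 / Real.log (Pool.Agent.Lib.MP_7ab245_nt.MM h)⌋₊ ≤ R)
    (hab : ∀ d r : ℕ, 1 ≤ d → d ≤ n → 1 ≤ r → r ≤ R →
      32000 * (Real.exp 1 ^ 2 * √(d * Real.log (2 * d * r * Real.exp 1) / r)) ≤
        a / (2 * r) + b * d) :
    ∑ h ∈ H, wt a b h ≤ 4 * n * R ^ 2 := by
  classical
  have hmaps : ∀ h ∈ H, ((h.natDegree, ⌊1 / Real.log (Pool.Agent.Lib.MP_7ab245_nt.MM h)⌋₊) : ℕ × ℕ) ∈
      Icc 1 n ×ˢ Icc 1 R := by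
    intro h hh
    obtain ⟨hirr, hd, h1, h2, hR⟩ := hH h hh
    have hl : 0 < Real.log (Pool.Agent.Lib.MP_7ab245_nt.MM h) := Real.log_pos h1
    have hl1 : Real.log (Pool.Agent.Lib.MP_7ab245_nt.MM h) ≤ 1 := by
      have := Real.log_le_sub_one_of_pos (lt_trans one_pos h1)
      linarith
    rw [mem_product, mem_Icc, mem_Icc]
    refine ⟨⟨deg_pos h1 h2, hd⟩, ?_, ?_⟩
    · apply Nat.le_floor
      rw [Nat.cast_one, le_div_iff₀ hl]
      linarith
    · exact hR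
  have hfib : ∀ p ∈ Icc 1 n ×ˢ Icc 1 R,
      ∑ h ∈ H with (h.natDegree, ⌊1 / Real.log (Pool.Agent.Lib.MP_7ab245_nt.MM h)⌋₊) = p,
        wt a b h ≤ 4 * R := by
    rintro ⟨d, r⟩ hp
    rw [mem_product, mem_Icc, mem_Icc] at hp
    obtain ⟨⟨hd1, hdn⟩, hr1, hrR⟩ := hp
    dsimp only at hd1 hdn hr1 hrR
    have hr0 : (0 : ℝ) < r := by exact_mod_cast hr1
    have hr1' : (1 : ℝ) ≤ r := by exact_mod_cast hr1
    set G := H.filter (fun h => (h.natDegree,
      ⌊1 / Real.log (Pool.Agent.Lib.MP_7ab245_nt.MM h)⌋₊) = (d, r)) with hG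
    have hGp : ∀ h ∈ G, Irreducible h ∧ h.natDegree = d ∧
        Real.log (Pool.Agent.Lib.MP_7ab245_nt.MM h) ≤ 1 / r ∧
        1 / (2 * r) ≤ Real.log (Pool.Agent.Lib.MP_7ab245_nt.MM h) ∧
        1 < Pool.Agent.Lib.MP_7ab245_nt.MM h := by
      intro h hh
      rw [hG, mem_filter, Prod.mk.injEq] at hh
      obtain ⟨hh, hd, hr⟩ := hh
      obtain ⟨hirr, -, h1, h2, -⟩ := hH h hh
      have hl : 0 < Real.log (Pool.Agent.Lib.MP_7ab245_nt.MM h) := Real.log_pos h1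
      refine ⟨hirr, hd, ?_, ?_, h1⟩
      · have h3 : (r : ℝ) ≤ 1 / Real.log (Pool.Agent.Lib.MP_7ab245_nt.MM h) := by
          rw [← hr]
          exact Nat.floor_le (by positivity)
        rw [le_div_iff₀ hl] at h3
        rw [le_div_iff₀ hr0]
        linarith
      · have h3 : 1 / Real.log (Pool.Agent.Lib.MP_7ab245_nt.MM h) < r + 1 := by
          rw [← hr]
          exact Nat.lt_floor_add_one _
        rw [div_lt_iff₀ hl] at h3
        rw [div_le_iff₀ (by positivity)]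
        nlinarith
    have hwt : ∀ h ∈ G, wt a b h ≤ Real.exp (-(a / (2 * r) + b * d)) := by
      intro h hh
      obtain ⟨-, hd, -, h4, -⟩ := hGp h hh
      unfold wt
      rw [hd]
      apply Real.exp_le_exp.mpr
      have h5 := mul_le_mul_of_nonneg_left h4 ha
      have h6 : a * (1 / (2 * (r : ℝ))) = a / (2 * r) := by ring
      linarith
    have hcard : (G.card : ℝ) ≤ 4 * r * Real.exp (32000 * (Real.exp 1 ^ 2 *
        √(d * Real.log (2 * d * r * Real.exp 1) / r))) := by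
      apply Cnt.uni d r (Real.exp 1) hd1 hr1 (Real.one_le_exp (by norm_num)) G
      intro h hh
      obtain ⟨hirr, hd, h3, -, h5⟩ := hGp h hh
      refine ⟨hd, ?_, Or.inr hirr⟩
      rw [cntMM]
      have h6 : 0 < Pool.Agent.Lib.MP_7ab245_nt.MM h := lt_trans one_pos h5
      rw [← Real.log_le_iff_le_exp (by positivity), Real.log_pow]
      rw [le_div_iff₀ hr0] at h3
      linarith
    have h7 := hab d r hd1 hdn hr1 hrR
    calc ∑ h ∈ G, wt a b h ≤ ∑ h ∈ G, Real.exp (-(a / (2 * r) + b * d)) := Finset.sum_le_sum hwt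
      _ = G.card * Real.exp (-(a / (2 * r) + b * d)) := by
          rw [Finset.sum_const, nsmul_eq_mul]
      _ ≤ (4 * r * Real.exp (a / (2 * r) + b * d)) * Real.exp (-(a / (2 * r) + b * d)) := by
          apply mul_le_mul_of_nonneg_right _ (Real.exp_pos _).le
          refine hcard.trans ?_
          gcongr
      _ = 4 * r := by
          rw [mul_assoc, ← Real.exp_add, add_neg_cancel, Real.exp_zero, mul_one]
      _ ≤ 4 * R := by
          have : (r : ℝ) ≤ R := by exact_mod_cast hrR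
          linarith
  calc ∑ h ∈ H, wt a b h
      = ∑ p ∈ Icc 1 n ×ˢ Icc 1 R,
          ∑ h ∈ H with (h.natDegree, ⌊1 / Real.log (Pool.Agent.Lib.MP_7ab245_nt.MM h)⌋₊) = p,
            wt a b h := (Finset.sum_fiberwise_of_maps_to hmaps _).symm
    _ ≤ ∑ p ∈ Icc 1 n ×ˢ Icc 1 R, (4 * R : ℝ) := Finset.sum_le_sum hfib
    _ = 4 * n * R ^ 2 := by
        rw [Finset.sum_const, Finset.card_product, Nat.card_Icc, Nat.card_Icc, nsmul_eq_mul]
        push_cast
        ring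

end Pool.Agent.Lib.MP_7ab245_nt.Cnt3
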