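import Pool.Agent.Lib.MP_7ab245_nt.Mono.Dobro
import Pool.Agent.Lib.MP_7ab245_nt.Cnt3.Zb

/-!
Polynomials without a divisor of Mahler measure one, of degree at most `n` and Mahler measure
less than two.
-/

set_option autoImplicit false

open Polynomial Finset

namespace Pool.Agent.Lib.MP_7ab245_nt.Cnt3

open Pool.Agent.Lib.MP_7ab245_nt

theorem log_pow_seven {x : ℝ} (hx : 1 ≤ x) : Real.log x ^ 7 ≤ 7 ^ 7 * x := by
  have h1 : Real.log x = 7 * Real.log (x ^ (1 / 7 : ℝ)) := by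
    rw [Real.log_rpow (by linarith)]
    ring
  have h2 : 1 ≤ x ^ (1 / 7 : ℝ) := Real.one_le_rpow hx (by norm_num)
  have h3 : 0 ≤ Real.log (x ^ (1 / 7 : ℝ)) := Real.log_nonneg h2
  have h4 : Real.log (x ^ (1 / 7 : ℝ)) ≤ x ^ (1 / 7 : ℝ) := by
    have := Real.log_le_sub_one_of_pos (lt_of_lt_of_le one_pos h2)
    linarith
  calc Real.log x ^ 7 = 7 ^ 7 * Real.log (x ^ (1 / 7 : ℝ)) ^ 7 := by rw [h1]; ring
    _ ≤ 7 ^ 7 * (x ^ (1 / 7 : ℝ)) ^ 7 := by gcongr
    _ = 7 ^ 7 * x := by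
        rw [← Real.rpow_natCast (x ^ (1 / 7 : ℝ)) 7, ← Real.rpow_mul (by linarith)]
        norm_num

theorem log_two_ge : (1 / 2 : ℝ) ≤ Real.log 2 := by
  have := Real.log_two_gt_d9
  linarith

/-- for `t ≤ 1`: `t L ^ 4 ≤ 1300 √(n L t)`, `L = log (2 n)` -/
theorem tL4 (n : ℕ) (t : ℝ) (hn : 1 ≤ n) (ht : 0 ≤ t) (ht1 : t ≤ 1) :
    t * Real.log (2 * n) ^ 4 ≤ 1300 * √(n * Real.log (2 * n) * t) := by
  have hn0 : (1 : ℝ) ≤ n := by exact_mod_cast hn
  have hL : 0 ≤ Real.log (2 * n) := Real.log_nonneg (by linarith)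
  have h1 := log_pow_seven (x := 2 * n) (by linarith)
  set L := Real.log (2 * n) with hLdef
  have h2 : (t * L ^ 4) ^ 2 ≤ 1300 ^ 2 * (n * L * t) := by
    have h3 : t * L ^ 7 ≤ 1300 ^ 2 * (n : ℝ) := by
      calc t * L ^ 7 ≤ 1 * L ^ 7 := by gcongr
        _ ≤ 7 ^ 7 * (2 * (n : ℝ)) := by linarith
        _ ≤ 1300 ^ 2 * (n : ℝ) := by nlinarith
    calc (t * L ^ 4) ^ 2 = (t * L ^ 7) * (L * t) := by ring
      _ ≤ (1300 ^ 2 * (n : ℝ)) * (L * t) := by gcongr
      _ = 1300 ^ 2 * (n * L * t) := by ring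
  have h4 : t * L ^ 4 = √((t * L ^ 4) ^ 2) := (Real.sqrt_sq (by positivity)).symm
  rw [h4]
  calc √((t * L ^ 4) ^ 2) ≤ √(1300 ^ 2 * (n * L * t)) := Real.sqrt_le_sqrt h2
    _ = 1300 * √(n * L * t) := by
        rw [Real.sqrt_mul (by positivity), Real.sqrt_sq (by norm_num)]

/-- arithmetic-geometric mean -/
theorem amgm (B L n t d r : ℝ) (hB : 0 ≤ B) (hL : 0 < L) (hn : 0 < n) (ht : 0 < t) (hd : 0 ≤ d)
    (hr : 0 < r) :
    B * √(d * L / r) ≤ B * √(n * L / t) / (2 * r) + B * √(t * L / n) * d := by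
  have h1 : √(n * L / t) * √(t * L / n) = L := by
    rw [← Real.sqrt_mul (by positivity)]
    have : n * L / t * (t * L / n) = L ^ 2 := by
      field_simp
    rw [this, Real.sqrt_sq hL.le]
  have h2 : 0 ≤ √(n * L / t) := Real.sqrt_nonneg _
  have h3 : 0 ≤ √(t * L / n) := Real.sqrt_nonneg _
  set u := √(n * L / t) with hu
  set v := √(t * L / n) with hv
  have h4 : √(d * L / r) ≤ u / (2 * r) + v * d := by
    rw [Real.sqrt_le_left (by positivity)]
    have h5 : d * L / r ≤ 4 * (u / (2 * r)) * (v * d) := by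
      have h6 : 4 * (u / (2 * r)) * (v * d) = 2 * (d * L / r) := by
        rw [← h1]
        field_simp
        ring
      have h7 : 0 ≤ d * L / r := by positivity
      linarith
    nlinarith [sq_nonneg (u / (2 * r) - v * d)]
  calc B * √(d * L / r) ≤ B * (u / (2 * r) + v * d) := by gcongr
    _ = B * u / (2 * r) + B * v * d := by ring

theorem lin_term (B L n t : ℝ) (hL : 0 < L) (hn : 0 < n) (ht : 0 < t) :
    B * √(n * L / t) * t + B * √(t * L / n) * n = 2 * B * √(n * L * t) := by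
  have h1 : √(n * L / t) * t = √(n * L * t) := by
    have h2 : t = √(t ^ 2) := (Real.sqrt_sq ht.le).symm
    nth_rewrite 2 [h2]
    rw [← Real.sqrt_mul (by positivity)]
    congr 1
    field_simp
  have h3 : √(t * L / n) * n = √(n * L * t) := by
    have h2 : n = √(n ^ 2) := (Real.sqrt_sq hn.le).symm
    nth_rewrite 2 [h2]
    rw [← Real.sqrt_mul (by positivity)]
    congr 1
    field_simp
  calc B * √(n * L / t) * t + B * √(t * L / n) * n
      = B * (√(n * L / t) * t) + B * (√(t * L / n) * n) := by ring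
    _ = 2 * B * √(n * L * t) := by rw [h1, h3]; ring

theorem q_bound (n : ℕ) (R L c : ℝ) (hn : 1 ≤ n) (hL : L = Real.log (2 * n)) (hL2 : 1 / 2 ≤ L)
    (hc : 0 < c) (hc1 : c ≤ 1) (hlogL : Real.log L ≤ L) (hR0 : 0 ≤ R) (hR : R ≤ L ^ 3 / c) :
    4 * n * R ^ 2 ≤ Real.exp ((21 - 4 * Real.log c) * L) := by
  have hn0 : (1 : ℝ) ≤ n := by exact_mod_cast hn
  have hLpos : 0 < L := by linarith
  have hlogc : Real.log c ≤ 0 := Real.log_nonpos hc.le hc1
  have h8 : Real.log (4 * n * (L ^ 3 / c) ^ 2) =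
      L + (Real.log 2 + 2 * (3 * Real.log L - Real.log c)) := by
    rw [show (4 : ℝ) * n * (L ^ 3 / c) ^ 2 = (2 * n) * (2 * (L ^ 3 / c) ^ 2) by ring,
      Real.log_mul (show (2 * (n : ℝ)) ≠ 0 by positivity) (by positivity),
      Real.log_mul (show (2 : ℝ) ≠ 0 by norm_num)
        (show (L ^ 3 / c) ^ 2 ≠ 0 by positivity), Real.log_pow, ← hL,
      Real.log_div (by positivity) hc.ne', Real.log_pow]
    norm_num
  have h6 := Real.log_two_lt_d9
  have h9 : Real.log (4 * n * (L ^ 3 / c) ^ 2) ≤ (21 - 4 * Real.log c) * L := by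
    rw [h8]
    have h7 : -Real.log c ≤ -(2 * Real.log c) * L := by nlinarith
    nlinarith
  calc 4 * n * R ^ 2 ≤ 4 * n * (L ^ 3 / c) ^ 2 := by gcongr
    _ = Real.exp (Real.log (4 * n * (L ^ 3 / c) ^ 2)) := by rw [Real.exp_log (by positivity)]
    _ ≤ _ := Real.exp_le_exp.mpr h9

theorem small : ∃ C : ℝ, 0 < C ∧ ∀ (n : ℕ) (t : ℝ), 1 ≤ n → 0 < t → t < Real.log 2 →
    ∀ F : Finset ℤ[X], (∀ g ∈ F, g ≠ 0 ∧ g.natDegree ≤ n ∧
      Real.log (Pool.Agent.Lib.MP_7ab245_nt.MM g) ≤ t ∧ NC g) →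
    (F.card : ℝ) ≤ 2 * Real.exp (C * √(n * Real.log (2 * n) * t)) := by
  classical
  obtain ⟨c0, hc0, hdob⟩ := Mono.dobrowolski
  set c := min c0 1 with hc
  have hcpos : 0 < c := lt_min hc0 one_pos
  have hc1 : c ≤ 1 := min_le_right _ _
  have hlogc : Real.log c ≤ 0 := Real.log_nonpos hcpos.le hc1
  set K4 := 4 + 2 * (1 - Real.log c) with hK4
  have hK4pos : 0 < K4 := by linarith
  set B := 32000 * Real.exp 1 ^ 2 * √K4 with hB
  have hBpos : 0 < B := by positivity
  set K1 := 21 - 4 * Real.log c with hK1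
  have hK1pos : 0 < K1 := by linarith
  refine ⟨2 * B + 1300 * ((2 + K1) / c), by positivity, ?_⟩
  intro n t hn ht ht2 F hF
  have hn0 : (1 : ℝ) ≤ n := by exact_mod_cast hn
  have ht1 : t ≤ 1 := by
    have := Real.log_two_lt_d9
    linarith
  set L := Real.log (2 * n) with hL
  have hL2 : (1 / 2 : ℝ) ≤ L :=
    log_two_ge.trans (Real.log_le_log (by norm_num) (by linarith))
  have hLpos : 0 < L := by linarith
  have hlogL : Real.log L ≤ L := by
    have := Real.log_le_sub_one_of_pos hLpos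
    linarith
  set δ := c / L ^ 3 with hδ
  have hδpos : 0 < δ := by positivity
  have hlow : ∀ h : ℤ[X], h.natDegree ≤ n → 1 < Pool.Agent.Lib.MP_7ab245_nt.MM h →
      δ ≤ Real.log (Pool.Agent.Lib.MP_7ab245_nt.MM h) := by
    intro h hd h1
    have h2 := hdob h (max n 2) (le_max_right _ _) (hd.trans (le_max_left _ _)) h1
    refine le_trans ?_ h2
    have h3 : Real.log ((max n 2 : ℕ) : ℝ) ≤ L := by
      apply Real.log_le_log
      · have : (2 : ℕ) ≤ max n 2 := le_max_right _ _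
        have h4 : (2 : ℝ) ≤ ((max n 2 : ℕ) : ℝ) := by exact_mod_cast this
        linarith
      · have : max n 2 ≤ 2 * n := by omega
        exact_mod_cast this
    have h4 : 0 < Real.log ((max n 2 : ℕ) : ℝ) := by
      apply Real.log_pos
      have : (2 : ℕ) ≤ max n 2 := le_max_right _ _
      have h4 : (2 : ℝ) ≤ ((max n 2 : ℕ) : ℝ) := by exact_mod_cast this
      linarith
    rw [hδ]
    have h5 : c ≤ c0 := min_le_left _ _
    gcongr
  set R := ⌊1 / δ⌋₊ with hR
  set m := ⌊t / δ⌋₊ with hm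
  have hRle : (R : ℝ) ≤ 1 / δ := Nat.floor_le (by positivity)
  have hmle : (m : ℝ) ≤ t / δ := Nat.floor_le (by positivity)
  have hmlt : t < δ * (m + 1) := by
    have := Nat.lt_floor_add_one (t / δ)
    rw [div_lt_iff₀ hδpos] at this
    linarith
  have hlogδ : Real.log (1 / δ) = 3 * Real.log L - Real.log c := by
    rw [hδ, one_div, inv_div, Real.log_div (by positivity) (by positivity), Real.log_pow]
    norm_num
  -- the set of irreducible polynomials
  set H := (Polynomial.finite_mahlerMeasure_le n 2).toFinset.filter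
    (fun h => Irreducible h ∧ 1 < Pool.Agent.Lib.MP_7ab245_nt.MM h ∧
      Pool.Agent.Lib.MP_7ab245_nt.MM h < 2) with hHdef
  have hHmem : ∀ h : ℤ[X], h ∈ H ↔ (h.natDegree ≤ n ∧ Pool.Agent.Lib.MP_7ab245_nt.MM h ≤ 2) ∧
      (Irreducible h ∧ 1 < Pool.Agent.Lib.MP_7ab245_nt.MM h ∧
        Pool.Agent.Lib.MP_7ab245_nt.MM h < 2) := by
    intro h
    rw [hHdef, mem_filter, Set.Finite.mem_toFinset]
    rfl
  have hH : ∀ h : ℤ[X], Irreducible h → h.natDegree ≤ n → 1 < Pool.Agent.Lib.MP_7ab245_nt.MM h →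
      Real.log (Pool.Agent.Lib.MP_7ab245_nt.MM h) ≤ t → h ∈ H := by
    intro h hirr hd h1 hlt
    rw [hHmem]
    have h2 : Pool.Agent.Lib.MP_7ab245_nt.MM h < 2 := by
      rw [← Real.log_lt_log_iff (by linarith) (by norm_num)]
      linarith
    exact ⟨⟨hd, h2.le⟩, hirr, h1, h2⟩
  set a := B * √(n * L / t) with ha
  set b := B * √(t * L / n) with hb
  have ha0 : 0 ≤ a := by positivity
  have hb0 : 0 ≤ b := by positivity
  have hZ : ∑ h ∈ H, wt a b h ≤ 4 * n * R ^ 2 := by
    apply Z_le n R a b ha0 H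
    · intro h hh
      rw [hHmem] at hh
      obtain ⟨⟨hd, -⟩, hirr, h1, h2⟩ := hh
      refine ⟨hirr, hd, h1, h2, ?_⟩
      apply Nat.floor_le_floor
      have h3 := hlow h hd h1
      exact one_div_le_one_div_of_le hδpos h3
    · intro d r hd1 hdn hr1 hrR
      have hd0 : (1 : ℝ) ≤ d := by exact_mod_cast hd1
      have hr0 : (1 : ℝ) ≤ r := by exact_mod_cast hr1
      have hdn' : (d : ℝ) ≤ n := by exact_mod_cast hdn
      have hr2 : (r : ℝ) ≤ 1 / δ := le_trans (by exact_mod_cast hrR) hRle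
      have h1 : Real.log (2 * d * r * Real.exp 1) ≤ K4 * L := by
        rw [Real.log_mul (by positivity) (by positivity), Real.log_exp,
          Real.log_mul (by positivity) (by positivity)]
        have h2 : Real.log (2 * d) ≤ L := Real.log_le_log (by positivity) (by linarith)
        have h3 : Real.log r ≤ 3 * Real.log L - Real.log c := by
          rw [← hlogδ]
          exact Real.log_le_log (by positivity) hr2
        have h4 : 1 - Real.log c ≤ 2 * (1 - Real.log c) * L := by nlinarith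
        rw [hK4]
        nlinarith
      have h5 : √(d * Real.log (2 * d * r * Real.exp 1) / r) ≤ √K4 * √(d * L / r) := by
        rw [← Real.sqrt_mul hK4pos.le]
        apply Real.sqrt_le_sqrt
        calc d * Real.log (2 * d * r * Real.exp 1) / r ≤ d * (K4 * L) / r := by gcongr
          _ = K4 * (d * L / r) := by ring
      calc 32000 * (Real.exp 1 ^ 2 * √(d * Real.log (2 * d * r * Real.exp 1) / r))
          ≤ 32000 * (Real.exp 1 ^ 2 * (√K4 * √(d * L / r))) := by gcongr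
        _ = B * √(d * L / r) := by rw [hB]; ring
        _ ≤ a / (2 * r) + b * d :=
            amgm B L n t d r hBpos.le hLpos (by linarith) ht (by linarith) (by linarith)
  have hcard := card_le n m a b t ha0 hb0 H F (by
    intro h hh
    rw [hHmem] at hh
    exact hh.2.1.ne_zero) (by
    intro g hg
    obtain ⟨h1, h2, h3, h4⟩ := hF g hg
    refine ⟨h2, h3, ?_⟩
    exact mem_AA n δ t H hlow hH m g h1 h4 h2 h3 (lt_of_le_of_lt h3 hmlt))
  rw [ha, hb, lin_term B L n t hLpos (by linarith) ht, ← ha, ← hb] at hcard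
  set S := √(n * L * t) with hS
  have hS0 : 0 ≤ S := Real.sqrt_nonneg _
  -- the second factor
  have hZ0 : 0 ≤ ∑ h ∈ H, wt a b h := Finset.sum_nonneg fun h _ => (wt_pos a b h).le
  have hQ : ∑ h ∈ H, wt a b h ≤ Real.exp (K1 * L) := by
    refine hZ.trans ?_
    apply q_bound n R L c hn hL hL2 hcpos hc1 hlogL (Nat.cast_nonneg _)
    refine hRle.trans (le_of_eq ?_)
    rw [hδ, one_div, inv_div]
  have hsum : ∑ i ∈ range (m + 1), 2 * (∑ h ∈ H, wt a b h) ^ i ≤
      2 * Real.exp (m + m * (K1 * L)) := by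
    calc ∑ i ∈ range (m + 1), 2 * (∑ h ∈ H, wt a b h) ^ i
        ≤ ∑ _i ∈ range (m + 1), 2 * Real.exp (K1 * L) ^ m := by
          refine Finset.sum_le_sum fun i hi => ?_
          have hi' : i ≤ m := Nat.lt_succ_iff.mp (Finset.mem_range.mp hi)
          have h1 : (∑ h ∈ H, wt a b h) ^ i ≤ Real.exp (K1 * L) ^ i := by gcongr
          have h2 : Real.exp (K1 * L) ^ i ≤ Real.exp (K1 * L) ^ m :=
            pow_le_pow_right₀ (Real.one_le_exp (by positivity)) hi'
          linarith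
      _ = 2 * ((m + 1) * Real.exp (K1 * L) ^ m) := by
          rw [Finset.sum_const, Finset.card_range, nsmul_eq_mul]
          push_cast
          ring
      _ ≤ 2 * (Real.exp m * Real.exp (K1 * L) ^ m) := by
          have := Real.add_one_le_exp (m : ℝ)
          gcongr
      _ = 2 * Real.exp (m + m * (K1 * L)) := by
          rw [← Real.exp_nat_mul, ← Real.exp_add]
  have hfin : (m : ℝ) + m * (K1 * L) ≤ 1300 * ((2 + K1) / c) * S := by
    have h1 := tL4 n t hn ht.le ht1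
    rw [← hL, ← hS] at h1
    have h2 : (m : ℝ) ≤ t * L ^ 3 / c := by
      refine hmle.trans (le_of_eq ?_)
      rw [hδ]
      field_simp
    have h3 : (m : ℝ) ≤ 2 * (m * L) := by
      have : (0 : ℝ) ≤ m := Nat.cast_nonneg _
      nlinarith
    calc (m : ℝ) + m * (K1 * L) ≤ (2 + K1) * (m * L) := by nlinarith
      _ ≤ (2 + K1) * (t * L ^ 3 / c * L) := by gcongr
      _ = (2 + K1) / c * (t * L ^ 4) := by ring
      _ ≤ (2 + K1) / c * (1300 * S) := by gcongr
      _ = 1300 * ((2 + K1) / c) * S := by ring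
  calc (F.card : ℝ) ≤ Real.exp (2 * B * S) * ∑ i ∈ range (m + 1), 2 * (∑ h ∈ H, wt a b h) ^ i :=
        hcard
    _ ≤ Real.exp (2 * B * S) * (2 * Real.exp (m + m * (K1 * L))) := by gcongr
    _ ≤ Real.exp (2 * B * S) * (2 * Real.exp (1300 * ((2 + K1) / c) * S)) := by gcongr
    _ = 2 * Real.exp ((2 * B + 1300 * ((2 + K1) / c)) * S) := by
        rw [show Real.exp (2 * B * S) * (2 * Real.exp (1300 * ((2 + K1) / c) * S)) =
          2 * (Real.exp (2 * B * S) * Real.exp (1300 * ((2 + K1) / c) * S)) by ring,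
          ← Real.exp_add]
        congr 2
        ring

end Pool.Agent.Lib.MP_7ab245_nt.Cnt3
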