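import Pool.Agent.Lib.MP_7ab245_nt.Cnt2.Fin2
import Pool.Agent.Lib.MP_7ab245_nt.Cnt3.Small

/-!
Polynomials without a divisor of Mahler measure one (except the units): the final bound. All integer
polynomials of degree `n` in terms of those of Mahler measure one.
-/

set_option autoImplicit false

open Polynomial Finset

namespace Pool.Agent.Lib.MP_7ab245_nt.Cnt3

open Pool.Agent.Lib.MP_7ab245_nt

theorem MM_X : Pool.Agent.Lib.MP_7ab245_nt.MM (X : ℤ[X]) = 1 := by
  unfold Pool.Agent.Lib.MP_7ab245_nt.MM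
  rw [Polynomial.map_X]
  have h := mahlerMeasure_X_sub_C (0 : ℂ)
  rw [C_0, sub_zero] at h
  rw [h]
  simp

theorem MM_X_pow (k : ℕ) : Pool.Agent.Lib.MP_7ab245_nt.MM (X ^ k : ℤ[X]) = 1 := by
  induction k with
  | zero => rw [pow_zero, MM_onec]
  | succ k ih => rw [pow_succ, MM_mulc, ih, MM_X, one_mul]

theorem not_X_dvd {g : ℤ[X]} (hg : NC g) : ¬ X ∣ g := by
  intro h
  exact (Polynomial.prime_X (R := ℤ)).not_isUnit (hg X h MM_X)

theorem NC_ne_zero {g : ℤ[X]} (hg : NC g) : g ≠ 0 := by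
  rintro rfl
  exact not_X_dvd hg (dvd_zero _)

theorem shift_inj {a b : ℕ} {g h : ℤ[X]} (hg : NC g) (hh : NC h) (e : X ^ a * g = X ^ b * h) :
    a = b ∧ g = h := by
  wlog hab : a ≤ b generalizing a b g h
  · obtain ⟨h1, h2⟩ := this hh hg e.symm (by omega)
    exact ⟨h1.symm, h2.symm⟩
  obtain ⟨k, rfl⟩ := Nat.exists_eq_add_of_le hab
  rw [pow_add, mul_assoc] at e
  have h1 := mul_left_cancel₀ (pow_ne_zero a X_ne_zero) e
  rcases Nat.eq_zero_or_pos k with rfl | hk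
  · rw [pow_zero, one_mul] at h1
    exact ⟨by simp, h1⟩
  · exfalso
    apply not_X_dvd hg
    rw [h1]
    exact (dvd_pow_self X (by omega)).mul_right h

theorem log_cube {x : ℝ} (hx : 1 ≤ x) : Real.log x ^ 3 ≤ 27 * x := by
  have h1 : Real.log x = 3 * Real.log (x ^ (1 / 3 : ℝ)) := by
    rw [Real.log_rpow (by linarith)]
    ring
  have h2 : 1 ≤ x ^ (1 / 3 : ℝ) := Real.one_le_rpow hx (by norm_num)
  have h3 : 0 ≤ Real.log (x ^ (1 / 3 : ℝ)) := Real.log_nonneg h2
  have h4 : Real.log (x ^ (1 / 3 : ℝ)) ≤ x ^ (1 / 3 : ℝ) := by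
    have := Real.log_le_sub_one_of_pos (lt_of_lt_of_le one_pos h2)
    linarith
  calc Real.log x ^ 3 = 27 * Real.log (x ^ (1 / 3 : ℝ)) ^ 3 := by rw [h1]; ring
    _ ≤ 27 * (x ^ (1 / 3 : ℝ)) ^ 3 := by gcongr
    _ = 27 * x := by
        rw [← Real.rpow_natCast (x ^ (1 / 3 : ℝ)) 3, ← Real.rpow_mul (by linarith)]
        norm_num

/-- the exponent -/
noncomputable def EE (n : ℕ) (T : ℝ) : ℝ :=
  min (T ^ 2 * √(n * Real.log (2 * n) * Real.log T)) (n / Real.log (2 * n))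

theorem EE_nonneg (n : ℕ) (T : ℝ) (hn : 1 ≤ n) (hT : 1 ≤ T) : 0 ≤ EE n T := by
  have hn0 : (1 : ℝ) ≤ n := by exact_mod_cast hn
  have h1 : 0 ≤ Real.log (2 * n) := Real.log_nonneg (by linarith)
  have h2 : 0 ≤ Real.log T := Real.log_nonneg hT
  exact le_min (by positivity) (by positivity)

theorem sqrt_le_EE (n : ℕ) (T : ℝ) (hn : 1 ≤ n) (hT : 1 ≤ T) (hT2 : T ≤ 2) :
    √(n * Real.log (2 * n) * Real.log T) ≤ 8 * EE n T := by
  have hn0 : (1 : ℝ) ≤ n := by exact_mod_cast hn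
  have hL2 : (1 / 2 : ℝ) ≤ Real.log (2 * n) :=
    log_two_ge.trans (Real.log_le_log (by norm_num) (by linarith))
  have h1 := log_cube (x := 2 * n) (by linarith)
  have ht : 0 ≤ Real.log T := Real.log_nonneg hT
  have ht1 : Real.log T ≤ 1 := by
    have h2 := Real.log_le_log (by linarith) hT2
    have := Real.log_two_lt_d9
    linarith
  unfold EE
  set L := Real.log (2 * n) with hL
  set t := Real.log T with htt
  have hLpos : 0 < L := by linarith
  have hs : 0 ≤ √(n * L * t) := Real.sqrt_nonneg _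
  rw [mul_min_of_nonneg _ _ (by norm_num : (0 : ℝ) ≤ 8)]
  apply le_min
  · have h3 : 1 ≤ T ^ 2 := by nlinarith
    nlinarith
  · have h3 : n * L * t ≤ (8 * (n / L)) ^ 2 := by
      have h4 : (8 * (n / L)) ^ 2 = 64 * n ^ 2 / L ^ 2 := by ring
      rw [h4, le_div_iff₀ (by positivity)]
      calc n * L * t * L ^ 2 ≤ n * L * 1 * L ^ 2 := by gcongr
        _ = n * L ^ 3 := by ring
        _ ≤ n * (27 * (2 * n)) := by gcongr
        _ ≤ 64 * (n : ℝ) ^ 2 := by nlinarith
    calc √(n * L * t) ≤ √((8 * (n / L)) ^ 2) := Real.sqrt_le_sqrt h3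
      _ = 8 * (n / L) := Real.sqrt_sq (by positivity)

theorem half_le_EE (n : ℕ) (T : ℝ) (hn : 1 ≤ n) (hT : 2 ≤ T) : 1 / 2 ≤ EE n T := by
  have hn0 : (1 : ℝ) ≤ n := by exact_mod_cast hn
  have hL2 : (1 / 2 : ℝ) ≤ Real.log (2 * n) :=
    log_two_ge.trans (Real.log_le_log (by norm_num) (by linarith))
  have ht2 : (1 / 2 : ℝ) ≤ Real.log T :=
    log_two_ge.trans (Real.log_le_log (by norm_num) hT)
  have hLn : Real.log (2 * n) ≤ 2 * n := by
    have := Real.log_le_sub_one_of_pos (show (0 : ℝ) < 2 * n by linarith)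
    linarith
  unfold EE
  apply le_min
  · have h1 : (1 / 2 : ℝ) ≤ √(n * Real.log (2 * n) * Real.log T) := by
      apply Real.le_sqrt_of_sq_le
      calc (1 / 2 : ℝ) ^ 2 = 1 * (1 / 2) * (1 / 2) := by norm_num
        _ ≤ n * Real.log (2 * n) * Real.log T := by gcongr
    nlinarith
  · rw [le_div_iff₀ (by linarith)]
    linarith

theorem big (ε : ℝ) (hε : 0 < ε) : ∃ C : ℝ, 0 < C ∧ ∀ (n : ℕ) (T : ℝ), 1 ≤ n → 2 ≤ T →
    T ≤ (n : ℝ) ^ (1 / 2 - ε) → ∀ F : Finset ℤ[X], (∀ g ∈ F, g.natDegree ≤ n ∧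
      Pool.Agent.Lib.MP_7ab245_nt.MM g ≤ T ∧ NC g) →
    (F.card : ℝ) ≤ 2 * Real.exp (C * EE n T) := by
  classical
  obtain ⟨C, hC0, hC⟩ := Cnt2.fin2 ε hε
  refine ⟨2 * C + 2, by positivity, ?_⟩
  intro n T hn hT hTn F hF
  have hn0 : (1 : ℝ) ≤ n := by exact_mod_cast hn
  set G := F.image (fun g => X ^ (n - g.natDegree) * g) with hG
  have hcard : G.card = F.card := by
    rw [hG]
    apply Finset.card_image_of_injOn
    intro g hg h hh e
    exact (shift_inj (hF g hg).2.2 (hF h hh).2.2 e).2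
  have h1 := hC n 1 T hn le_rfl (by linarith) (by simpa using hTn) G (by
    intro f hf
    rw [hG, mem_image] at hf
    obtain ⟨g, hg, rfl⟩ := hf
    obtain ⟨h1, h2, h3⟩ := hF g hg
    refine ⟨?_, ?_, Or.inl rfl⟩
    · rw [natDegree_X_pow_mul _ (NC_ne_zero h3)]
      omega
    · rw [pow_one, cntMM, MM_mulc, MM_X_pow, one_mul]
      exact h2)
  rw [hcard] at h1
  have hL2 : (1 / 2 : ℝ) ≤ Real.log (2 * n) :=
    log_two_ge.trans (Real.log_le_log (by norm_num) (by linarith))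
  have ht2 : (1 / 2 : ℝ) ≤ Real.log T :=
    log_two_ge.trans (Real.log_le_log (by norm_num) hT)
  have h2 : min (T ^ 2 * √(n * Real.log (2 * n * (1 : ℕ) * T) / (1 : ℕ)))
      (n / Real.log (2 * n * (1 : ℕ))) ≤ 2 * EE n T := by
    unfold EE
    rw [mul_min_of_nonneg _ _ (by norm_num : (0 : ℝ) ≤ 2)]
    rw [Nat.cast_one, mul_one, div_one]
    apply min_le_min
    · have h3 : Real.log (2 * n * T) ≤ 4 * (Real.log (2 * n) * Real.log T) := by
        rw [Real.log_mul (by positivity) (by positivity)]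
        nlinarith
      have h4 : √(n * Real.log (2 * n * T)) ≤ 2 * √(n * Real.log (2 * n) * Real.log T) := by
        have h5 : (2 : ℝ) = √4 := by
          rw [show (4 : ℝ) = 2 ^ 2 by norm_num, Real.sqrt_sq (by norm_num)]
        nth_rewrite 2 [h5]
        rw [← Real.sqrt_mul (by norm_num)]
        apply Real.sqrt_le_sqrt
        calc n * Real.log (2 * n * T) ≤ n * (4 * (Real.log (2 * n) * Real.log T)) := by gcongr
          _ = 4 * (n * Real.log (2 * n) * Real.log T) := by ring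
      calc T ^ 2 * √(n * Real.log (2 * n * T))
          ≤ T ^ 2 * (2 * √(n * Real.log (2 * n) * Real.log T)) := by gcongr
        _ = 2 * (T ^ 2 * √(n * Real.log (2 * n) * Real.log T)) := by ring
    · have : 0 ≤ n / Real.log (2 * n) := by positivity
      linarith
  have h3 := half_le_EE n T hn hT
  calc (F.card : ℝ) ≤ 4 * (1 : ℕ) * Real.exp (C * min (T ^ 2 *
        √(n * Real.log (2 * n * (1 : ℕ) * T) / (1 : ℕ))) (n / Real.log (2 * n * (1 : ℕ)))) := h1
    _ ≤ 4 * (1 : ℕ) * Real.exp (C * (2 * EE n T)) := by gcongr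
    _ = 2 * (2 * Real.exp (2 * C * EE n T)) := by push_cast; ring_nf
    _ ≤ 2 * (Real.exp 1 * Real.exp (2 * C * EE n T)) := by
        have := Real.exp_one_gt_d9
        gcongr
        linarith
    _ = 2 * Real.exp (1 + 2 * C * EE n T) := by rw [← Real.exp_add]
    _ ≤ 2 * Real.exp ((2 * C + 2) * EE n T) := by
        gcongr
        nlinarith

theorem fin3 (ε : ℝ) (hε : 0 < ε) : ∃ C : ℝ, 0 < C ∧ ∀ (n : ℕ) (T : ℝ), 1 ≤ n → 1 ≤ T →
    (T < 2 ∨ T ≤ (n : ℝ) ^ (1 / 2 - ε)) → ∀ F : Finset ℤ[X], (∀ g ∈ F, g.natDegree ≤ n ∧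
      Pool.Agent.Lib.MP_7ab245_nt.MM g ≤ T ∧ NC g) →
    (F.card : ℝ) ≤ 2 * Real.exp (C * EE n T) := by
  classical
  obtain ⟨C1, hC1, h1⟩ := small
  obtain ⟨C2, hC2, h2⟩ := big ε hε
  refine ⟨8 * C1 + C2, by positivity, ?_⟩
  intro n T hn hT hor F hF
  have hE := EE_nonneg n T hn hT
  rcases lt_or_ge T 2 with hT2 | hT2
  · rcases eq_or_lt_of_le hT with hT1 | hT1
    · -- T = 1
      have hsub : F ⊆ {1, -1} := by
        intro g hg
        obtain ⟨-, h3, h4⟩ := hF g hg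
        have h5 : Pool.Agent.Lib.MP_7ab245_nt.MM g = 1 :=
          le_antisymm (h3.trans_eq hT1.symm) (MM_one_le (NC_ne_zero h4))
        have h6 := unit_mem ∅ (h4 g dvd_rfl h5)
        simpa [AA] using h6
      have h3 : F.card ≤ 2 := (Finset.card_le_card hsub).trans Finset.card_le_two
      have h4 : (F.card : ℝ) ≤ 2 := by exact_mod_cast h3
      have h5 : 1 ≤ Real.exp ((8 * C1 + C2) * EE n T) := Real.one_le_exp (by positivity)
      linarith
    · have h3 := h1 n (Real.log T) hn (Real.log_pos hT1)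
        (Real.log_lt_log (by linarith) hT2) F (by
          intro g hg
          obtain ⟨h3, h4, h5⟩ := hF g hg
          refine ⟨NC_ne_zero h5, h3, ?_, h5⟩
          exact Real.log_le_log (MM_pos (NC_ne_zero h5)) h4)
      refine h3.trans ?_
      have h4 := sqrt_le_EE n T hn hT hT2.le
      refine mul_le_mul_of_nonneg_left (Real.exp_le_exp.mpr ?_) (by norm_num)
      calc C1 * √(n * Real.log (2 * n) * Real.log T) ≤ C1 * (8 * EE n T) := by gcongr
        _ ≤ (8 * C1 + C2) * EE n T := by nlinarith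
  · have hTn : T ≤ (n : ℝ) ^ (1 / 2 - ε) := by
      rcases hor with h | h
      · linarith
      · exact h
    refine (h2 n T hn hT2 hTn F hF).trans ?_
    gcongr
    linarith

end Pool.Agent.Lib.MP_7ab245_nt.Cnt3
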