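import Pool.Agent.Lib.MP_7ab245_nt.Cnt3.Root

/-!
If Lehmer's conjecture is false, the numbers of polynomials of degree at most `n` and Mahler measure at
most `T` without zeros which are `0` or roots of unity grow faster than every power of `n`.
-/

set_option autoImplicit false

open Polynomial Finset

namespace Pool.Agent.Lib.MP_7ab245_nt.Cnt3

open Pool.Agent.Lib.MP_7ab245_nt

/-- the converse of `NC_of_roots` -/
theorem roots_of_NC {g : ℤ[X]} (hg : NC g) (z : ℂ) (hz : aeval z g = 0) :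
    z ≠ 0 ∧ ∀ k : ℕ, 0 < k → z ^ k ≠ 1 := by
  constructor
  · rintro rfl
    have h1 : (X : ℤ[X]) ∣ g := by
      rw [X_dvd_iff]
      have h2 := coeff_zero_eq_aeval_zero' (A := ℂ) g
      rw [hz, algebraMap_int_eq, eq_intCast] at h2
      exact_mod_cast h2
    exact not_isUnit_X (hg X h1 MM_X)
  · intro k hk h1
    have hn : 0 < orderOf z := orderOf_pos_iff.2 (isOfFinOrder_iff_pow_eq_one.2 ⟨k, hk, h1⟩)
    have h2 : IsPrimitiveRoot z (orderOf z) := IsPrimitiveRoot.orderOf z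
    have h3 : cyclotomic (orderOf z) ℤ ∣ g := by
      rw [cyclotomic_eq_minpoly h2 hn]
      exact minpoly.isIntegrallyClosed_dvd (h2.isIntegral hn) hz
    have h4 : Pool.Agent.Lib.MP_7ab245_nt.MM (cyclotomic (orderOf z) ℤ) = 1 := by
      unfold Pool.Agent.Lib.MP_7ab245_nt.MM
      exact cyclotomic_mahlerMeasure_eq_one (R := ℤ) (orderOf z)
    have h5 := natDegree_eq_zero_of_isUnit (hg _ h3 h4)
    rw [natDegree_cyclotomic] at h5
    exact (Nat.totient_pos.2 hn).ne' h5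

/-! ### Substitution of powers -/

private theorem gap_X_pow_sub_C (a : ℂ) {m : ℕ} (hm : 0 < m) :
    ((X : ℂ[X]) ^ m - C a).mahlerMeasure = max 1 ‖a‖ := by
  have hmon : ((X : ℂ[X]) ^ m - C a).Monic := monic_X_pow_sub_C a hm.ne'
  have hcard : Multiset.card ((X : ℂ[X]) ^ m - C a).roots = m := by
    rw [(IsAlgClosed.splits _).natDegree_eq_card_roots.symm, natDegree_X_pow_sub_C]
  have hroot : ∀ b ∈ ((X : ℂ[X]) ^ m - C a).roots, ‖b‖ ^ m = ‖a‖ := by
    intro b hb
    have h1 := (mem_roots'.mp hb).2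
    rw [IsRoot, eval_sub, eval_pow, eval_X, eval_C, sub_eq_zero] at h1
    rw [← norm_pow, h1]
  obtain ⟨r, hr0, hr⟩ : ∃ r : ℝ, 0 ≤ r ∧ r ^ m = ‖a‖ :=
    ⟨‖a‖ ^ ((m : ℝ)⁻¹), by positivity, Real.rpow_inv_natCast_pow (norm_nonneg a) hm.ne'⟩
  have hroot' : ∀ b ∈ ((X : ℂ[X]) ^ m - C a).roots, max 1 ‖b‖ = max 1 r := by
    intro b hb
    rw [(pow_left_inj₀ (norm_nonneg b) hr0 hm.ne').mp ((hroot b hb).trans hr.symm)]
  rw [mahlerMeasure_eq_leadingCoeff_mul_prod_roots, hmon.leadingCoeff, norm_one, one_mul,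
    Multiset.map_congr rfl hroot', Multiset.map_const', Multiset.prod_replicate, hcard, ← hr]
  rcases le_total 1 r with h | h
  · rw [max_eq_right h, max_eq_right (one_le_pow₀ h)]
  · rw [max_eq_left h, one_pow, max_eq_left (pow_le_one₀ hr0 h)]

private theorem gap_multiset (s : Multiset ℂ) {m : ℕ} (hm : 0 < m) :
    (s.map fun a => (X : ℂ[X]) ^ m - C a).prod.mahlerMeasure = (s.map fun a => max 1 ‖a‖).prod := by
  induction s using Multiset.induction_on with
  | empty => simp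
  | cons a s ih =>
    rw [Multiset.map_cons, Multiset.prod_cons, mahlerMeasure_mul, ih, Multiset.map_cons,
      Multiset.prod_cons, gap_X_pow_sub_C a hm]

private theorem gap_expand (f : ℂ[X]) {m : ℕ} (hm : 0 < m) :
    (expand ℂ m f).mahlerMeasure = f.mahlerMeasure := by
  have h1 : f = C f.leadingCoeff * (f.roots.map fun a => X - C a).prod :=
    (IsAlgClosed.splits f).eq_prod_roots
  have h2 : expand ℂ m f = C f.leadingCoeff * (f.roots.map fun a => (X : ℂ[X]) ^ m - C a).prod := by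
    conv_lhs => rw [h1]
    rw [map_mul, expand_C, map_multiset_prod, Multiset.map_map]
    congr 2
    apply Multiset.map_congr rfl
    intro a _
    simp
  rw [h2, mahlerMeasure_mul, gap_multiset _ hm, mahlerMeasure_const,
    mahlerMeasure_eq_leadingCoeff_mul_prod_roots]

theorem MM_expand (g : ℤ[X]) {m : ℕ} (hm : 0 < m) :
    Pool.Agent.Lib.MP_7ab245_nt.MM (expand ℤ m g) = Pool.Agent.Lib.MP_7ab245_nt.MM g := by
  unfold Pool.Agent.Lib.MP_7ab245_nt.MM
  rw [map_expand, gap_expand _ hm]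

/-- the product of the `g(X ^ m)`, `m ∈ s` -/
noncomputable def PS (g : ℤ[X]) (s : Multiset ℕ) : ℤ[X] := (s.map fun m => expand ℤ m g).prod

theorem PS_cons (g : ℤ[X]) (m : ℕ) (s : Multiset ℕ) : PS g (m ::ₘ s) = expand ℤ m g * PS g s := by
  unfold PS
  rw [Multiset.map_cons, Multiset.prod_cons]

theorem PS_zero (g : ℤ[X]) : PS g 0 = 1 := by
  unfold PS
  rw [Multiset.map_zero, Multiset.prod_zero]

theorem expand_ne {g : ℤ[X]} (hg : g ≠ 0) {m : ℕ} (hm : 0 < m) : expand ℤ m g ≠ 0 := fun h =>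
  hg ((expand_eq_zero hm).1 h)

theorem PS_root (g : ℤ[X]) (z : ℂ) (s : Multiset ℕ) :
    aeval z (PS g s) = 0 ↔ ∃ m ∈ s, aeval (z ^ m) g = 0 := by
  induction s using Multiset.induction_on with
  | empty =>
    rw [PS_zero, map_one]
    simp
  | cons m s ih =>
    rw [PS_cons, map_mul, mul_eq_zero, ih, expand_aeval]
    simp

theorem PS_ne {g : ℤ[X]} (hg : g ≠ 0) (s : Multiset ℕ) (hs : ∀ m ∈ s, 0 < m) : PS g s ≠ 0 := by
  induction s using Multiset.induction_on with
  | empty =>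
    rw [PS_zero]
    exact one_ne_zero
  | cons m s ih =>
    rw [PS_cons]
    exact mul_ne_zero (expand_ne hg (hs m (Multiset.mem_cons_self _ _)))
      (ih fun m' h => hs m' (Multiset.mem_cons_of_mem h))

theorem PS_MM {g : ℤ[X]} (s : Multiset ℕ) (hs : ∀ m ∈ s, 0 < m) :
    Pool.Agent.Lib.MP_7ab245_nt.MM (PS g s) =
      Pool.Agent.Lib.MP_7ab245_nt.MM g ^ (Multiset.card s) := by
  induction s using Multiset.induction_on with
  | empty => rw [PS_zero, MM_onec, Multiset.card_zero, pow_zero]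
  | cons m s ih =>
    rw [PS_cons, MM_mulc, MM_expand g (hs m (Multiset.mem_cons_self _ _)),
      ih fun m' h => hs m' (Multiset.mem_cons_of_mem h), Multiset.card_cons, pow_succ']

theorem PS_deg {g : ℤ[X]} (L : ℕ) (s : Multiset ℕ) (hs : ∀ m ∈ s, m ≤ L) :
    (PS g s).natDegree ≤ g.natDegree * L * Multiset.card s := by
  induction s using Multiset.induction_on with
  | empty => rw [PS_zero, natDegree_one]; exact Nat.zero_le _
  | cons m s ih =>
    rw [PS_cons, Multiset.card_cons]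
    refine natDegree_mul_le.trans ?_
    have h1 := ih fun m' h => hs m' (Multiset.mem_cons_of_mem h)
    have h2 : (expand ℤ m g).natDegree ≤ g.natDegree * L := by
      rw [natDegree_expand]
      exact Nat.mul_le_mul_left _ (hs m (Multiset.mem_cons_self _ _))
    rw [Nat.mul_succ]
    omega

/-- the exponents are determined by the product -/
private theorem gap_le {g : ℤ[X]} {a : ℂ} (ha : aeval a g = 0) (ha1 : 1 < ‖a‖)
    (hmax : ∀ z : ℂ, aeval z g = 0 → ‖z‖ ≤ ‖a‖) {s s' : Multiset ℕ} (hs : ∀ m ∈ s, 0 < m)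
    (he : PS g s = PS g s') : ∀ m ∈ s, ∃ m' ∈ s', m' ≤ m := by
  intro m hm
  obtain ⟨z, hz⟩ := IsAlgClosed.exists_pow_nat_eq a (hs m hm)
  have h1 : aeval z (PS g s) = 0 := (PS_root g z s).2 ⟨m, hm, by rw [hz]; exact ha⟩
  rw [he] at h1
  obtain ⟨m', hm', h2⟩ := (PS_root g z s').1 h1
  refine ⟨m', hm', ?_⟩
  have h3 := hmax _ h2
  rw [← hz, norm_pow, norm_pow] at h3
  have hz1 : 1 < ‖z‖ := by
    by_contra hcon
    push Not at hcon
    have := pow_le_one₀ (norm_nonneg z) hcon (n := m)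
    rw [← norm_pow, hz] at this
    linarith
  exact (pow_le_pow_iff_right₀ hz1).1 h3

private theorem gap_inj {g : ℤ[X]} (hg : g ≠ 0) {a : ℂ} (ha : aeval a g = 0) (ha1 : 1 < ‖a‖)
    (hmax : ∀ z : ℂ, aeval z g = 0 → ‖z‖ ≤ ‖a‖) (k : ℕ) : ∀ s s' : Multiset ℕ,
    Multiset.card s = k → (∀ m ∈ s, 0 < m) → (∀ m ∈ s', 0 < m) → PS g s = PS g s' → s = s' := by
  induction k with
  | zero =>
    intro s s' hk hs hs' he
    rw [Multiset.card_eq_zero] at hk
    subst hk
    symm
    rw [Multiset.eq_zero_iff_forall_notMem]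
    intro m hm
    obtain ⟨m', hm', -⟩ := gap_le ha ha1 hmax hs' he.symm m hm
    exact absurd hm' (Multiset.notMem_zero _)
  | succ k ih =>
    intro s s' hk hs hs' he
    have hne : s.toFinset.Nonempty := by
      obtain ⟨m, hm⟩ := Multiset.card_pos_iff_exists_mem.1 (show 0 < Multiset.card s by omega)
      exact ⟨m, Multiset.mem_toFinset.2 hm⟩
    obtain ⟨m, hm, hmin⟩ := s.toFinset.exists_min_image id hne
    rw [Multiset.mem_toFinset] at hm
    obtain ⟨m₁, hm₁, hle⟩ := gap_le ha ha1 hmax hs he m hm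
    have hne' : s'.toFinset.Nonempty := ⟨m₁, Multiset.mem_toFinset.2 hm₁⟩
    obtain ⟨m', hm', hmin'⟩ := s'.toFinset.exists_min_image id hne'
    rw [Multiset.mem_toFinset] at hm'
    obtain ⟨m₂, hm₂, hle'⟩ := gap_le ha ha1 hmax hs' he.symm m' hm'
    have h1 : m' ≤ m₁ := hmin' m₁ (Multiset.mem_toFinset.2 hm₁)
    have h2 : m ≤ m₂ := hmin m₂ (Multiset.mem_toFinset.2 hm₂)
    have h3 : m = m' := by omega
    subst h3
    obtain ⟨t, rfl⟩ := Multiset.exists_cons_of_mem hm
    obtain ⟨t', rfl⟩ := Multiset.exists_cons_of_mem hm'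
    rw [PS_cons, PS_cons] at he
    have h4 := mul_left_cancel₀ (expand_ne hg (hs m hm)) he
    rw [Multiset.card_cons] at hk
    rw [ih t t' (by omega) (fun i hi => hs i (Multiset.mem_cons_of_mem hi))
      (fun i hi => hs' i (Multiset.mem_cons_of_mem hi)) h4]

/-! ### Counting -/

/-- the multiset of the numbers `i + 1` -/
private def gap_ms {L K : ℕ} (s : Sym (Fin L) K) : Multiset ℕ :=
  Multiset.map (fun i : Fin L => i.val + 1) s.1

private theorem gap_ms_inj {L K : ℕ} {s s' : Sym (Fin L) K} (h : gap_ms s = gap_ms s') : s = s' := by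
  have h1 : Function.Injective fun i : Fin L => i.val + 1 := fun i j hij => by
    simp only at hij
    exact Fin.ext (by omega)
  exact Subtype.ext (Multiset.map_injective h1 h)

private theorem gap_card {g : ℤ[X]} (hg : NC g) {a : ℂ} (ha : aeval a g = 0) (ha1 : 1 < ‖a‖)
    (hmax : ∀ z : ℂ, aeval z g = 0 → ‖z‖ ≤ ‖a‖) (K L n : ℕ) (T : ℝ)
    (hT : Pool.Agent.Lib.MP_7ab245_nt.MM g ^ K ≤ T) (hn : g.natDegree * L * K ≤ n) :
    (L + K - 1).choose K ≤ {g : ℤ[X] | g ≠ 0 ∧ g.natDegree ≤ n ∧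
      (g.map (Int.castRingHom ℂ)).mahlerMeasure ≤ T ∧
      ∀ z : ℂ, aeval z g = 0 → z ≠ 0 ∧ ∀ k : ℕ, 0 < k → z ^ k ≠ 1}.ncard := by
  classical
  have hg0 := NC_ne_zero hg
  have hfin : {g : ℤ[X] | g ≠ 0 ∧ g.natDegree ≤ n ∧
      (g.map (Int.castRingHom ℂ)).mahlerMeasure ≤ T ∧
      ∀ z : ℂ, aeval z g = 0 → z ≠ 0 ∧ ∀ k : ℕ, 0 < k → z ^ k ≠ 1}.Finite :=
    (fin_set n T).subset fun g hg => ⟨hg.2.1, hg.2.2.1⟩
  have hpos : ∀ s : Sym (Fin L) K, ∀ m ∈ gap_ms s, 0 < m := by
    intro s m hm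
    obtain ⟨i, -, rfl⟩ := Multiset.mem_map.1 hm
    omega
  have hle : ∀ s : Sym (Fin L) K, ∀ m ∈ gap_ms s, m ≤ L := by
    intro s m hm
    obtain ⟨i, -, rfl⟩ := Multiset.mem_map.1 hm
    exact i.2
  have hc : ∀ s : Sym (Fin L) K, Multiset.card (gap_ms s) = K := by
    intro s
    unfold gap_ms
    rw [Multiset.card_map]
    exact s.2
  have h1 : (Finset.univ.image fun s : Sym (Fin L) K => PS g (gap_ms s)).card = (L + K - 1).choose K := by
    rw [Finset.card_image_of_injective, Finset.card_univ, Sym.card_sym_eq_choose, Fintype.card_fin]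
    intro s s' he
    exact gap_ms_inj (gap_inj hg0 ha ha1 hmax _ _ _ rfl (hpos s) (hpos s') he)
  rw [← h1, ← Set.ncard_coe_finset]
  refine Set.ncard_le_ncard ?_ hfin
  intro P hP
  rw [Finset.mem_coe, Finset.mem_image] at hP
  obtain ⟨s, -, rfl⟩ := hP
  refine ⟨PS_ne hg0 _ (hpos s), ?_, ?_, ?_⟩
  · have := PS_deg (g := g) L (gap_ms s) (hle s)
    rw [hc] at this
    exact this.trans hn
  · have h2 := PS_MM (g := g) (gap_ms s) (hpos s)
    rw [hc] at h2
    have h3 : ((PS g (gap_ms s)).map (Int.castRingHom ℂ)).mahlerMeasure =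
        Pool.Agent.Lib.MP_7ab245_nt.MM g ^ K := h2
    rw [h3]
    exact hT
  · intro z hz
    obtain ⟨m, hm, h2⟩ := (PS_root g z _).1 hz
    have hm0 := hpos s m hm
    obtain ⟨h3, h4⟩ := roots_of_NC hg _ h2
    constructor
    · rintro rfl
      exact h3 (zero_pow hm0.ne')
    · intro k hk h5
      apply h4 k hk
      rw [← pow_mul, mul_comm, pow_mul, h5, one_pow]

/-- If there is a polynomial with `1 < M(f)`, `M(f) ^ K ≤ T`, `M(f) < 2`, then the numbers of polynomials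
are at least `c n ^ K`. -/
theorem gap_lower {f : ℤ[X]} (h1 : 1 < Pool.Agent.Lib.MP_7ab245_nt.MM f)
    (h2 : Pool.Agent.Lib.MP_7ab245_nt.MM f < 2) (K : ℕ) (T : ℝ)
    (hT : Pool.Agent.Lib.MP_7ab245_nt.MM f ^ K ≤ T) :
    ∃ B : ℕ, 0 < B ∧ ∀ n : ℕ, B ≤ n → n ^ K ≤ B * {g : ℤ[X] | g ≠ 0 ∧ g.natDegree ≤ n ∧
      (g.map (Int.castRingHom ℂ)).mahlerMeasure ≤ T ∧
      ∀ z : ℂ, aeval z g = 0 → z ≠ 0 ∧ ∀ k : ℕ, 0 < k → z ^ k ≠ 1}.ncard := by
  classical
  have hf0 : f ≠ 0 := by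
    rintro rfl
    unfold Pool.Agent.Lib.MP_7ab245_nt.MM at h1
    simp at h1
    linarith
  obtain ⟨k, g, he, hk, hg⟩ := split_aux _ f hf0 rfl
  have hM : Pool.Agent.Lib.MP_7ab245_nt.MM g = Pool.Agent.Lib.MP_7ab245_nt.MM f := by
    rw [he, MM_mulc, hk, one_mul]
  rw [← hM] at h1 h2 hT
  have hg0 := NC_ne_zero hg
  -- a zero of largest absolute value
  obtain ⟨a, ha, ha1, hmax⟩ : ∃ a : ℂ, aeval a g = 0 ∧ 1 < ‖a‖ ∧ ∀ z : ℂ, aeval z g = 0 → ‖z‖ ≤ ‖a‖ := by
    have hmem : ∀ z : ℂ, z ∈ (g.map (Int.castRingHom ℂ)).roots ↔ aeval z g = 0 := by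
      intro z
      have h3 : g.map (Int.castRingHom ℂ) ≠ 0 := by
        rw [Ne, Polynomial.map_eq_zero_iff (Int.castRingHom ℂ).injective_int]
        exact hg0
      rw [mem_roots h3, IsRoot, eval_map]
      rfl
    have hlc : ‖(g.map (Int.castRingHom ℂ)).leadingCoeff‖ ≤ 1 := by
      have h3 := leadingCoeff_le_mahlerMeasure (g.map (Int.castRingHom ℂ))
      rw [leadingCoeff_map_of_injective (Int.castRingHom ℂ).injective_int] at h3 ⊢
      have h4 : ‖(Int.castRingHom ℂ) g.leadingCoeff‖ = ((|g.leadingCoeff| : ℤ) : ℝ) := by simp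
      rw [h4] at h3 ⊢
      have h5 : ((|g.leadingCoeff| : ℤ) : ℝ) < 2 := lt_of_le_of_lt h3 h2
      have h6 : |g.leadingCoeff| < 2 := by exact_mod_cast h5
      have h7 : |g.leadingCoeff| ≤ 1 := by omega
      exact_mod_cast h7
    have hex : ∃ a ∈ (g.map (Int.castRingHom ℂ)).roots, 1 < ‖a‖ := by
      by_contra hcon
      push Not at hcon
      have h3 : Pool.Agent.Lib.MP_7ab245_nt.MM g ≤ 1 := by
        unfold Pool.Agent.Lib.MP_7ab245_nt.MM
        show (g.map (Int.castRingHom ℂ)).mahlerMeasure ≤ 1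
        rw [mahlerMeasure_eq_leadingCoeff_mul_prod_roots]
        have h4 : ((g.map (Int.castRingHom ℂ)).roots.map fun a => max 1 ‖a‖).prod = 1 := by
          apply Multiset.prod_eq_one
          intro x hx
          rw [Multiset.mem_map] at hx
          obtain ⟨a, ha, rfl⟩ := hx
          exact max_eq_left (hcon a ha)
        rw [h4, mul_one]
        exact hlc
      linarith
    obtain ⟨a₀, ha₀, ha₀1⟩ := hex
    obtain ⟨a, ha, hmax⟩ := (g.map (Int.castRingHom ℂ)).roots.toFinset.exists_max_image (fun z => ‖z‖)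
      ⟨a₀, Multiset.mem_toFinset.2 ha₀⟩
    rw [Multiset.mem_toFinset] at ha
    refine ⟨a, (hmem a).1 ha, lt_of_lt_of_le ha₀1 (hmax a₀ (Multiset.mem_toFinset.2 ha₀)), fun z hz => ?_⟩
    exact hmax z (Multiset.mem_toFinset.2 ((hmem z).2 hz))
  have hd : 0 < g.natDegree := by
    rcases Nat.eq_zero_or_pos g.natDegree with h3 | h3
    · exfalso
      rw [eq_C_of_natDegree_eq_zero h3] at ha
      rw [aeval_C, algebraMap_int_eq, eq_intCast] at ha
      apply hg0
      rw [eq_C_of_natDegree_eq_zero h3]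
      have h4 : g.coeff 0 = 0 := by exact_mod_cast ha
      rw [h4, C_0]
    · exact h3
  rcases Nat.eq_zero_or_pos K with hK | hK
  · -- K = 0
    subst hK
    refine ⟨1, one_pos, fun n hn => ?_⟩
    have h3 := gap_card hg ha ha1 hmax 0 1 n T hT (by simp)
    simpa using h3
  · refine ⟨(2 * (g.natDegree * K)) ^ K * K.factorial, by positivity, fun n hn => ?_⟩
    set D := g.natDegree * K with hD
    have hD0 : 0 < D := Nat.mul_pos hd hK
    have h3 := gap_card hg ha ha1 hmax K (n / D) n T hT (by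
      calc g.natDegree * (n / D) * K = D * (n / D) := by rw [hD]; ring
        _ ≤ n := Nat.mul_div_le n D)
    have h4 : (n / D) ^ K ≤ K.factorial * (n / D + K - 1).choose K := by
      have h5 := Nat.pow_sub_le_descFactorial (n / D + K - 1) K
      rw [Nat.descFactorial_eq_factorial_mul_choose] at h5
      have h6 : ∀ q : ℕ, q + K - 1 + 1 - K = q := by
        intro q
        omega
      rwa [h6] at h5
    have hL : 1 ≤ n / D := by
      rw [Nat.one_le_div_iff hD0]
      refine le_trans ?_ hn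
      calc D ≤ 2 * D := by omega
        _ = (2 * D) ^ 1 := (pow_one _).symm
        _ ≤ (2 * D) ^ K := Nat.pow_le_pow_right (Nat.mul_pos two_pos hD0) hK
        _ ≤ (2 * D) ^ K * K.factorial := Nat.le_mul_of_pos_right _ (Nat.factorial_pos _)
    have h7 : n ≤ 2 * D * (n / D) := by
      have h8 := Nat.lt_mul_div_succ n hD0
      have h9 : D * (n / D + 1) ≤ 2 * D * (n / D) := by
        calc D * (n / D + 1) ≤ D * (n / D + n / D) := Nat.mul_le_mul_left _ (Nat.add_le_add_left hL _)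
          _ = 2 * D * (n / D) := by ring
      exact h8.le.trans h9
    calc n ^ K ≤ (2 * D * (n / D)) ^ K := Nat.pow_le_pow_left h7 _
      _ = (2 * D) ^ K * (n / D) ^ K := by rw [mul_pow]
      _ ≤ (2 * D) ^ K * (K.factorial * (n / D + K - 1).choose K) := Nat.mul_le_mul_left _ h4
      _ = (2 * D) ^ K * K.factorial * (n / D + K - 1).choose K := by ring
      _ ≤ _ := Nat.mul_le_mul_left _ h3

end Pool.Agent.Lib.MP_7ab245_nt.Cnt3
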