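import Pool.Agent.Lib.MP_7ab245_nt.Cnt3.Fin3

/-!
All integer polynomials of degree `n` and Mahler measure at most `T`, in terms of those of Mahler
measure one.
-/

set_option autoImplicit false

open Polynomial Finset

namespace Pool.Agent.Lib.MP_7ab245_nt.Cnt3

open Pool.Agent.Lib.MP_7ab245_nt

theorem isUnit_of_deg_zero {h : ℤ[X]} (h1 : Pool.Agent.Lib.MP_7ab245_nt.MM h = 1)
    (h2 : h.natDegree = 0) : IsUnit h := by
  rw [eq_C_of_natDegree_eq_zero h2] at h1 ⊢
  rw [MM_Cc] at h1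
  have h3 : |h.coeff 0| = (1 : ℤ) := by exact_mod_cast h1
  apply IsUnit.map
  rw [Int.isUnit_iff]
  exact (abs_eq (by norm_num)).mp h3

theorem split_aux (m : ℕ) : ∀ f : ℤ[X], f ≠ 0 → f.natDegree = m →
    ∃ k g : ℤ[X], f = k * g ∧ Pool.Agent.Lib.MP_7ab245_nt.MM k = 1 ∧ NC g := by
  induction m using Nat.strong_induction_on with
  | _ m ih =>
    intro f hf hd
    by_cases hNC : NC f
    · exact ⟨1, f, (one_mul f).symm, MM_onec, hNC⟩
    unfold NC at hNC
    push Not at hNC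
    obtain ⟨h, ⟨f', rfl⟩, h1, h2⟩ := hNC
    have hh0 := left_ne_zero_of_mul hf
    have hf0 := right_ne_zero_of_mul hf
    have h3 : h.natDegree ≠ 0 := fun h0 => h2 (isUnit_of_deg_zero h1 h0)
    have h4 := natDegree_mul hh0 hf0
    obtain ⟨k, g, e, h5, h6⟩ := ih f'.natDegree (by omega) f' hf0 rfl
    refine ⟨h * k, g, ?_, ?_, h6⟩
    · rw [e]; ring
    · rw [MM_mulc, h1, h5, one_mul]

theorem NC_neg {g : ℤ[X]} (hg : NC g) : NC (-g) := fun h hd hM => hg h ((dvd_neg).mp hd) hM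

theorem MM_negc (g : ℤ[X]) :
    Pool.Agent.Lib.MP_7ab245_nt.MM (-g) = Pool.Agent.Lib.MP_7ab245_nt.MM g := by
  rw [← neg_one_mul, MM_mulc, MM_neg_one, one_mul]

theorem split_pos (f : ℤ[X]) (hf : f ≠ 0) :
    ∃ k g : ℤ[X], f = k * g ∧ Pool.Agent.Lib.MP_7ab245_nt.MM k = 1 ∧ NC g ∧ 0 < g.leadingCoeff := by
  obtain ⟨k, g, e, h1, h2⟩ := split_aux _ f hf rfl
  have hg0 := NC_ne_zero h2
  have h3 : g.leadingCoeff ≠ 0 := leadingCoeff_ne_zero.mpr hg0
  rcases lt_or_gt_of_ne h3 with h4 | h4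
  · refine ⟨-k, -g, by rw [e]; ring, ?_, NC_neg h2, ?_⟩
    · rw [MM_negc, h1]
    · rw [leadingCoeff_neg]; linarith
  · exact ⟨k, g, e, h1, h2, h4⟩

theorem fin_set (n : ℕ) (T : ℝ) :
    {f : ℤ[X] | f.natDegree ≤ n ∧ Pool.Agent.Lib.MP_7ab245_nt.MM f ≤ T}.Finite := by
  refine (Polynomial.finite_mahlerMeasure_le n T.toNNReal).subset ?_
  rintro f ⟨h1, h2⟩
  exact ⟨h1, h2.trans (Real.le_coe_toNNReal T)⟩

theorem rel (ε : ℝ) (hε : 0 < ε) : ∃ C : ℝ, 0 < C ∧ ∀ (n : ℕ) (T : ℝ), 1 ≤ n → 1 ≤ T →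
    (T < 2 ∨ T ≤ (n : ℝ) ^ (1 / 2 - ε)) →
    ({f : ℤ[X] | f.natDegree = n ∧ Pool.Agent.Lib.MP_7ab245_nt.MM f ≤ T}.ncard : ℝ) ≤
      {f : ℤ[X] | f.natDegree = n ∧ Pool.Agent.Lib.MP_7ab245_nt.MM f = 1}.ncard *
        Real.exp (C * EE n T) := by
  classical
  obtain ⟨C, hC0, hC⟩ := fin3 ε hε
  refine ⟨C, hC0, ?_⟩
  intro n T hn hT hor
  have hf1 : {f : ℤ[X] | f.natDegree = n ∧ Pool.Agent.Lib.MP_7ab245_nt.MM f = 1}.Finite :=
    (fin_set n 1).subset fun f hf => ⟨hf.1.le, hf.2.le⟩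
  have hf2 : {f : ℤ[X] | f.natDegree = n ∧ Pool.Agent.Lib.MP_7ab245_nt.MM f ≤ T}.Finite :=
    (fin_set n T).subset fun f hf => ⟨hf.1.le, hf.2⟩
  have hf3 : {g : ℤ[X] | (g.natDegree ≤ n ∧ Pool.Agent.Lib.MP_7ab245_nt.MM g ≤ T ∧ NC g) ∧
      0 < g.leadingCoeff}.Finite :=
    (fin_set n T).subset fun f hf => ⟨hf.1.1, hf.1.2.1⟩
  set A := hf1.toFinset with hA
  set S := hf2.toFinset with hS
  set G := hf3.toFinset with hG
  have hGmem : ∀ g, g ∈ G ↔ (g.natDegree ≤ n ∧ Pool.Agent.Lib.MP_7ab245_nt.MM g ≤ T ∧ NC g) ∧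
      0 < g.leadingCoeff := by
    intro g
    rw [hG, Set.Finite.mem_toFinset]
    rfl
  have hcG : (G.card : ℝ) ≤ Real.exp (C * EE n T) := by
    have hdisj : Disjoint G (G.image fun g => -g) := by
      rw [Finset.disjoint_left]
      intro g hg hg'
      rw [mem_image] at hg'
      obtain ⟨h, hh, rfl⟩ := hg'
      rw [hGmem] at hg hh
      have h1 := hg.2
      rw [leadingCoeff_neg] at h1
      have h2 := hh.2
      omega
    have h1 := hC n T hn hT hor (G ∪ G.image fun g => -g) (by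
      intro g hg
      rw [mem_union, mem_image] at hg
      rcases hg with hg | ⟨h, hh, rfl⟩
      · exact ((hGmem g).mp hg).1
      · obtain ⟨⟨h1, h2, h3⟩, -⟩ := (hGmem h).mp hh
        refine ⟨by rwa [natDegree_neg], by rwa [MM_negc], NC_neg h3⟩)
    rw [Finset.card_union_of_disjoint hdisj,
      Finset.card_image_of_injective _ neg_injective] at h1
    push_cast at h1
    linarith
  have hcS : S.card ≤ A.card * G.card := by
    rw [← Finset.card_product]
    have hch : ∀ f ∈ S, ∃ p : ℤ[X] × ℤ[X], f = p.1 * p.2 ∧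
        Pool.Agent.Lib.MP_7ab245_nt.MM p.1 = 1 ∧ NC p.2 ∧ 0 < p.2.leadingCoeff := by
      intro f hf
      rw [hS, Set.Finite.mem_toFinset] at hf
      have hf0 : f ≠ 0 := by
        rintro rfl
        have := hf.1
        rw [natDegree_zero] at this
        omega
      obtain ⟨k, g, h1, h2, h3, h4⟩ := split_pos f hf0
      exact ⟨(k, g), h1, h2, h3, h4⟩
    choose! p hp1 hp2 hp3 hp4 using hch
    apply Finset.card_le_card_of_injOn (fun f => ((p f).1 * X ^ (p f).2.natDegree, (p f).2))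
    · intro f hf
      have hf' := hf
      rw [Finset.mem_coe, hS, Set.Finite.mem_toFinset] at hf'
      obtain ⟨hd, hM⟩ := hf'
      have h1 := hp1 f hf
      have h2 := hp2 f hf
      have h3 := hp3 f hf
      have h4 := hp4 f hf
      have hg0 := NC_ne_zero h3
      have hk0 : (p f).1 ≠ 0 := by
        intro h0
        rw [h0] at h2
        unfold Pool.Agent.Lib.MP_7ab245_nt.MM at h2
        rw [Polynomial.map_zero, mahlerMeasure_zero] at h2
        exact zero_ne_one h2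
      have h5 : (p f).1.natDegree + (p f).2.natDegree = n := by
        rw [← natDegree_mul hk0 hg0, ← h1, hd]
      have h6 : Pool.Agent.Lib.MP_7ab245_nt.MM (p f).2 ≤ T := by
        have h7 : Pool.Agent.Lib.MP_7ab245_nt.MM f = Pool.Agent.Lib.MP_7ab245_nt.MM (p f).2 := by
          conv_lhs => rw [h1]
          rw [MM_mulc, h2, one_mul]
        rw [← h7]
        exact hM
      rw [Finset.mem_coe, mem_product]
      refine ⟨?_, ?_⟩
      · rw [hA, Set.Finite.mem_toFinset]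
        refine ⟨?_, ?_⟩
        · dsimp only
          rw [natDegree_mul hk0 (pow_ne_zero _ X_ne_zero), natDegree_X_pow]
          exact h5
        · dsimp only
          rw [MM_mulc, MM_X_pow, h2, one_mul]
      · rw [hGmem]
        exact ⟨⟨by dsimp only; omega, h6, h3⟩, h4⟩
    · intro f hf f' hf' e
      dsimp only at e
      rw [Prod.mk.injEq] at e
      obtain ⟨e1, e2⟩ := e
      rw [e2] at e1
      have e3 := mul_right_cancel₀ (pow_ne_zero _ X_ne_zero) e1
      rw [hp1 f hf, hp1 f' hf', e3, e2]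
  rw [Set.ncard_eq_toFinset_card _ hf1, Set.ncard_eq_toFinset_card _ hf2]
  calc (S.card : ℝ) ≤ (A.card * G.card : ℕ) := by exact_mod_cast hcS
    _ = (A.card : ℝ) * G.card := by push_cast; ring
    _ ≤ A.card * Real.exp (C * EE n T) := by gcongr

end Pool.Agent.Lib.MP_7ab245_nt.Cnt3
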