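import Pool.Agent.Lib.MP_7ab245_nt.Cnt3.Rel

/-!
A polynomial none of whose zeros is zero or a root of unity has no divisor of Mahler measure one
(except the units).
-/

set_option autoImplicit false

open Polynomial Finset

namespace Pool.Agent.Lib.MP_7ab245_nt.Cnt3

open Pool.Agent.Lib.MP_7ab245_nt

theorem NC_of_roots {g : ℤ[X]} (hg0 : g ≠ 0)
    (hg : ∀ z : ℂ, aeval z g = 0 → z ≠ 0 ∧ ∀ k : ℕ, 0 < k → z ^ k ≠ 1) : NC g := by
  intro h hd hM
  by_cases h0 : h.natDegree = 0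
  · exact isUnit_of_deg_zero hM h0
  exfalso
  have hh0 : h ≠ 0 := by
    rintro rfl
    exact h0 natDegree_zero
  have hdeg : 0 < (h.map (Int.castRingHom ℂ)).degree := by
    rw [degree_map_eq_of_injective (Int.castRingHom ℂ).injective_int]
    exact natDegree_pos_iff_degree_pos.mp (Nat.pos_of_ne_zero h0)
  obtain ⟨z, hz⟩ := Complex.exists_root hdeg
  have hz1 : aeval z h = 0 := by
    have h1 : (h.map (Int.castRingHom ℂ)).eval z = 0 := hz
    rwa [eval_map] at h1
  have hz2 : z ∈ h.aroots ℂ := by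
    rw [mem_aroots]
    exact ⟨hh0, hz1⟩
  have hz3 : aeval z g = 0 := by
    obtain ⟨q, rfl⟩ := hd
    rw [map_mul, hz1, zero_mul]
  obtain ⟨h1, h2⟩ := hg z hz3
  obtain ⟨k, hk, hk1⟩ := pow_eq_one_of_mahlerMeasure_eq_one hM h1 hz2
  exact h2 k hk hk1

end Pool.Agent.Lib.MP_7ab245_nt.Cnt3
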